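import Mathlib
import Pool.Agent.CutChoose.Main2

/-!
# A winning strategy for Choose on `ω₂` and precipitous ideals

If Choose wins the cut and choose game of length `ω` on `ω₂`, then either there is a precipitous
ideal on `ω₂`, or there is an `ω₂`-complete ideal `I` on `ω₂` such that all antichains of `I` have
size less than `2 ^ ℵ₁`, one of them has size `ℵ₃`, and among any `2 ^ ℵ₂` functions from `ω₂` to
an antichain of `I` two agree on an `I`-positive set.

In particular the negated form of the question holds in every model of `2 ^ ℵ₁ ≤ ℵ₃`.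
-/

open Cardinal Set Function Pool.Agent.CutChoose
open scoped Ordinal

namespace Pool.Agent.Results.MP_c95919_lc.ChooseDichotomy

/-- If Choose has a winning strategy in the cut and choose game of length `ω` on `ω₂`, then
`ω₂` carries a precipitous ideal, or `ℵ₃ < 2 ^ ℵ₁` and `ω₂` carries an `ω₂`-complete proper ideal
`I` containing the bounded sets such that: all antichains of `I` have size less than `2 ^ ℵ₁`;
one of them has size `ℵ₃`; and in every family of functions from `ω₂` to an antichain of `I`, indexed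
by the subsets of `ω₂`, two functions agree on a positive set. -/
theorem result (hC : ChooseWins OmegaTwo) :
    (∃ I : Set (Set OmegaTwo), IsOmegaTwoIdeal I ∧ IsPrecipitous I) ∨
    ((ℵ_ 3 : Cardinal.{0}) < 2 ^ (ℵ_ 1 : Cardinal.{0}) ∧
      ∃ I : Set (Set OmegaTwo), IsOmegaTwoIdeal I ∧
        (∀ W, IsIAntichain I W → #W < 2 ^ (ℵ_ 1 : Cardinal.{0})) ∧
        (∃ W, IsIAntichain I W ∧ #W = ℵ_ 3) ∧
        ∀ W : Set (Set OmegaTwo), IsIAntichain I W → ∀ F : Set OmegaTwo → OmegaTwo → W,
          ∃ A B, A ≠ B ∧ {x | F A x = F B x} ∉ I) := by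
  obtain ⟨S, p, h⟩ := main2 hC
  obtain ⟨h1, h2, h3, h4⟩ := ideal_props S p
  rcases h with h | ⟨⟨W, h6, h8⟩, h5⟩
  · refine Or.inl ⟨S.ideal p, ⟨h1, h2, h3, h4⟩, ⟨h.forcedWellFounded, h.jechPrikry h1 ?_⟩⟩
    have h5 := h2 ∅ (by rw [Cardinal.mk_eq_zero]; exact Cardinal.aleph_pos 2)
      (empty_subset _)
    rwa [sUnion_empty] at h5
  · refine Or.inr ⟨?_, S.ideal p, ⟨h1, h2, h3, h4⟩, antichain_lt h3 h5, ⟨W, h6, h8⟩, h5⟩
    rw [← h8]
    exact antichain_lt h3 h5 W h6

end Pool.Agent.Results.MP_c95919_lc.ChooseDichotomy
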